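import Pool.Agent.H4.FD.Stmt

/-!
# Project VN: cross polytopes as arrangements
-/

set_option autoImplicit false

open Finset

namespace Pool.Agent.H78.VN

open Pool.Agent.H85.Fold4 Pool.Agent.H4.FD

/-- the sign of a Boolean -/
def sgb (b : Bool) : ℝ := if b then 1 else -1

/-- The graph of the cross polytope with the pairs of opposite vertices indexed by `ι` is the graph of the
arrangement of the coordinate hyperplanes. -/
theorem cross_arr {W ι : Type} [Fintype ι] (H : SimpleGraph W) (e : W ≃ ι × Bool)
    (hadj : ∀ u v, H.Adj u v ↔ (e u).1 ≠ (e v).1) : SubArrangement H (Fintype.card ι) := by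
  classical
  have f : ι ≃ Fin (Fintype.card ι) := Fintype.equivFin ι
  have hW : Finite W := Finite.of_equiv _ e.symm
  have hdot : ∀ (i : Fin (Fintype.card ι)) (y : Fin (Fintype.card ι) → ℝ),
      (Pi.single i 1 : Fin (Fintype.card ι) → ℝ) ⬝ᵥ y = y i := fun i y => by
    rw [single_one_dotProduct]
  refine SubArrangement.arr H _ (Fintype.card ι) (fun i => Pi.single i 1)
    (fun u => Pi.single (f (e u).1) (sgb (e u).2)) ⟨?_, ?_, ?_⟩
  · intro u v
    rw [hadj]
    simp only [hdot]
    constructor
    · intro h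
      refine ⟨fun h1 => h (by rw [h1]), fun i => ?_⟩
      by_cases h1 : i = f (e u).1
      · have h2 : i ≠ f (e v).1 := fun h2 => h (f.injective (h1.symm.trans h2))
        rw [Pi.single_eq_of_ne h2, mul_zero]
      · rw [Pi.single_eq_of_ne h1, zero_mul]
    · rintro ⟨h1, h2⟩ h3
      have h4 := h2 (f (e u).1)
      rw [Pi.single_eq_same, ← h3, Pi.single_eq_same] at h4
      have h5 : (e u).2 ≠ (e v).2 := fun h5 => h1 (e.injective (Prod.ext h3 h5))
      revert h4 h5
      cases (e u).2 <;> cases (e v).2 <;> simp [sgb] <;> norm_num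
  · intro σ hσ c hc v hv
    have h1 := congrFun hc (f (e v).1)
    rw [Finset.sum_apply, Pi.zero_apply, sum_eq_single v] at h1
    · rw [Pi.smul_apply, Pi.single_eq_same, smul_eq_mul] at h1
      rcases mul_eq_zero.1 h1 with h2 | h2
      · exact h2
      · exfalso
        revert h2
        cases (e v).2 <;> simp [sgb]
    · intro w hw hwv
      have h2 := (hadj w v).1 (hσ (mem_coe.2 hw) (mem_coe.2 hv) hwv)
      have h3 : f (e v).1 ≠ f (e w).1 := fun h3 => h2 (f.injective h3).symm
      rw [Pi.smul_apply, Pi.single_eq_of_ne h3, smul_zero]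
    · intro h2
      exact absurd hv h2
  · intro x
    set g : ι → W := fun i => e.symm (i, decide (0 ≤ x (f i))) with hg
    have hginj : Function.Injective g := by
      intro i j hij
      have h1 := e.symm.injective hij
      exact (Prod.ext_iff.1 h1).1
    have hge : ∀ i, e (g i) = (i, decide (0 ≤ x (f i))) := fun i => by
      rw [hg]
      exact e.apply_symm_apply _
    refine ⟨univ.image g, fun v => |x (f (e v).1)|, ?_, fun v _ => abs_nonneg _, ?_⟩
    · intro u hu v hv huv
      rw [mem_coe, mem_image] at hu hv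
      obtain ⟨i, _, rfl⟩ := hu
      obtain ⟨j, _, rfl⟩ := hv
      rw [hadj, hge, hge]
      intro h1
      exact huv (by rw [show i = j from h1])
    · funext k
      obtain ⟨j, rfl⟩ := f.surjective k
      rw [sum_image (fun i _ j _ h => hginj h), Finset.sum_apply, sum_eq_single j]
      · simp only [hge, Pi.smul_apply, Pi.single_eq_same, smul_eq_mul]
        by_cases h1 : 0 ≤ x (f j)
        · simp [sgb, h1, abs_of_nonneg h1]
        · push Not at h1
          simp [sgb, not_le.2 h1, abs_of_neg h1]
      · intro i _ hij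
        have h3 : f j ≠ f i := fun h3 => hij (f.injective h3).symm
        rw [hge, Pi.smul_apply, Pi.single_eq_of_ne h3, smul_zero]
      · intro h2
        exact absurd (mem_univ j) h2

/-- the iterated subdivisions of arrangements, up to isomorphism -/
def SubArr {V : Type} (G : SimpleGraph V) (n : ℕ) : Prop :=
  ∃ (W : Type) (H : SimpleGraph W), Finite W ∧ SubArrangement H n ∧ Nonempty (G ≃g H)

theorem SubArr.iso {V V' : Type} {G : SimpleGraph V} {G' : SimpleGraph V'} {n : ℕ}
    (h : SubArr G n) (e : G' ≃g G) : SubArr G' n := by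
  obtain ⟨W, H, hW, hH, ⟨φ⟩⟩ := h
  exact ⟨W, H, hW, hH, ⟨e.trans φ⟩⟩

/-- the isomorphism of subdivisions -/
def subdivIso {V W : Type} {G : SimpleGraph V} {H : SimpleGraph W} (φ : G ≃g H) (u w : V) :
    edgeSubdiv G u w ≃g edgeSubdiv H (φ u) (φ w) where
  toEquiv := φ.toEquiv.optionCongr
  map_rel_iff' := by
    intro x y
    have h : ∀ a b, φ a = φ b ↔ a = b := fun a b => φ.injective.eq_iff
    rcases x with _ | a <;> rcases y with _ | b
    · exact Iff.rfl
    · simp [edgeSubdiv, h, SimpleGraph.Iso.map_adj_iff]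
    · simp [edgeSubdiv, h, SimpleGraph.Iso.map_adj_iff]
    · simp [edgeSubdiv, h, SimpleGraph.Iso.map_adj_iff]

theorem SubArr.subdiv {V : Type} {G : SimpleGraph V} {n : ℕ} (h : SubArr G n) {u w : V}
    (huw : G.Adj u w) : SubArr (edgeSubdiv G u w) n := by
  obtain ⟨W, H, hW, hH, ⟨φ⟩⟩ := h
  exact ⟨Option W, edgeSubdiv H (φ u) (φ w), inferInstance,
    SubArrangement.subdiv H n _ _ (φ.map_adj_iff.2 huw) hH, ⟨subdivIso φ u w⟩⟩

end Pool.Agent.H78.VN
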