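import Pool.Agent.H78.VN.Step
import Pool.Agent.H78.VN.Cross

/-!
# Project VN: binary trees inside a flag building set, and the main theorem
-/

set_option autoImplicit false

open Finset

namespace Pool.Agent.H78.VN

open Pool.Agent.H85.Fold4 Pool.Agent.H4.FD

variable {S : Type} [Fintype S] [DecidableEq S]

/-- a binary tree of subsets of `J` -/
structure IsTree (T : Finset (Finset S)) (J : Finset S) : Prop where
  sub : ∀ K ∈ T, K ⊆ J
  ne : ∀ K ∈ T, K.Nonempty
  top : J ∈ T
  lam : ∀ K ∈ T, ∀ L ∈ T, K ⊆ L ∨ L ⊆ K ∨ Disjoint K L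
  dec : ∀ K ∈ T, 2 ≤ K.card → ∃ K1 ∈ T, ∃ K2 ∈ T, Disjoint K1 K2 ∧ K1 ∪ K2 = K
  count : (T.filter fun K => 2 ≤ K.card).card + 1 = J.card

theorem exists_tree {B : Finset (Finset S)} (hB : IsFB B) :
    ∀ n : ℕ, ∀ J ∈ B, J.card ≤ n → ∃ T ⊆ B, IsTree T J := by
  intro n
  induction n with
  | zero =>
    intro J hJ hn
    have := card_pos.2 (hB.ne J hJ)
    omega
  | succ n ih =>
    intro J hJ hn
    by_cases h1 : 2 ≤ J.card
    · obtain ⟨J1, h2, J2, h3, hd, hu⟩ := hB.dec J hJ h1
      have hc : J1.card + J2.card = J.card := by rw [← hu, card_union_of_disjoint hd]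
      have hK0 := card_pos.2 (hB.ne J1 h2)
      have hL0 := card_pos.2 (hB.ne J2 h3)
      obtain ⟨T1, hT1B, hT1⟩ := ih J1 h2 (by omega)
      obtain ⟨T2, hT2B, hT2⟩ := ih J2 h3 (by omega)
      have hJ1 : J1 ⊆ J := hu ▸ subset_union_left
      have hJ2 : J2 ⊆ J := hu ▸ subset_union_right
      have hd12 : ∀ K ∈ T1, ∀ L ∈ T2, Disjoint K L := fun K hK L hL =>
        (hd.mono_left (hT1.sub K hK)).mono_right (hT2.sub L hL)
      have hsub : ∀ K ∈ insert J (T1 ∪ T2), K ⊆ J := by
        intro K hK
        rw [mem_insert, mem_union] at hK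
        rcases hK with rfl | hK | hK
        · exact Subset.rfl
        · exact (hT1.sub K hK).trans hJ1
        · exact (hT2.sub K hK).trans hJ2
      refine ⟨insert J (T1 ∪ T2), ?_, ⟨hsub, ?_, mem_insert_self _ _, ?_, ?_, ?_⟩⟩
      · intro K hK
        rw [mem_insert, mem_union] at hK
        rcases hK with rfl | hK | hK
        · exact hJ
        · exact hT1B hK
        · exact hT2B hK
      · intro K hK
        rw [mem_insert, mem_union] at hK
        rcases hK with rfl | hK | hK
        · exact hB.ne _ hJ
        · exact hT1.ne K hK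
        · exact hT2.ne K hK
      · intro K hK L hL
        rw [mem_insert] at hK hL
        rcases hK with rfl | hK
        · exact Or.inr (Or.inl (hsub L (mem_insert.2 hL)))
        rcases hL with rfl | hL
        · exact Or.inl (hsub K (mem_insert.2 (Or.inr hK)))
        rcases mem_union.1 hK with hK | hK <;> rcases mem_union.1 hL with hL | hL
        · exact hT1.lam K hK L hL
        · exact Or.inr (Or.inr (hd12 K hK L hL))
        · exact Or.inr (Or.inr (hd12 L hL K hK).symm)
        · exact hT2.lam K hK L hL
      · intro K hK hKc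
        rw [mem_insert, mem_union] at hK
        rcases hK with rfl | hK | hK
        · exact ⟨J1, mem_insert_of_mem (mem_union_left _ hT1.top), J2,
            mem_insert_of_mem (mem_union_right _ hT2.top), hd, hu⟩
        · obtain ⟨A, hA, A', hA', h4, h5⟩ := hT1.dec K hK hKc
          exact ⟨A, mem_insert_of_mem (mem_union_left _ hA), A',
            mem_insert_of_mem (mem_union_left _ hA'), h4, h5⟩
        · obtain ⟨A, hA, A', hA', h4, h5⟩ := hT2.dec K hK hKc
          exact ⟨A, mem_insert_of_mem (mem_union_right _ hA), A',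
            mem_insert_of_mem (mem_union_right _ hA'), h4, h5⟩
      · have hJn : J ∉ T1 ∪ T2 := by
          intro h4
          rcases mem_union.1 h4 with h5 | h5
          · have := card_le_card (hT1.sub J h5)
            omega
          · have := card_le_card (hT2.sub J h5)
            omega
        have hdT : Disjoint T1 T2 := by
          rw [disjoint_left]
          intro K hK hK'
          obtain ⟨x, hx⟩ := hT1.ne K hK
          exact disjoint_left.1 (hd12 K hK K hK') hx hx
        rw [filter_insert, if_pos h1, card_insert_of_notMem (by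
          intro h4
          exact hJn (mem_filter.1 h4).1), filter_union,
          card_union_of_disjoint (disjoint_filter_filter hdT)]
        have c1 := hT1.count
        have c2 := hT2.count
        omega
    · have h2 : J.card = 1 := by
        have := card_pos.2 (hB.ne J hJ)
        omega
      refine ⟨{J}, by simpa using hJ, ⟨?_, ?_, mem_singleton_self J, ?_, ?_, ?_⟩⟩
      · intro K hK
        rw [mem_singleton.1 hK]
      · intro K hK
        rw [mem_singleton.1 hK]
        exact hB.ne J hJ
      · intro K hK L hL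
        rw [mem_singleton.1 hK, mem_singleton.1 hL]
        exact Or.inl Subset.rfl
      · intro K hK hKc
        rw [mem_singleton.1 hK] at hKc
        omega
      · rw [filter_singleton, if_neg h1, h2]
        rfl

/-- the two halves of a node, with the uniqueness properties -/
theorem IsTree.isFB {T : Finset (Finset S)} (h : IsTree T univ) : IsFB T := by
  refine ⟨h.ne, h.top, ?_, h.dec⟩
  intro J hJ K hK hJK
  rcases h.lam J hJ K hK with h1 | h1 | h1
  · rw [union_eq_right.2 h1]
    exact hK
  · rw [union_eq_left.2 h1]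
    exact hJ
  · exact absurd h1 hJK

section cross

variable {T : Finset (Finset S)} (h : IsTree T univ)

include h

/-- members inside a node and different from it lie in one of the halves -/
theorem IsTree.half {K L1 L2 L : Finset S} (hK : K ∈ T) (h1 : L1 ∈ T) (h2 : L2 ∈ T)
    (_hd : Disjoint L1 L2) (hu : L1 ∪ L2 = L) (hKL : K ⊆ L) (hne : K ≠ L) : K ⊆ L1 ∨ K ⊆ L2 := by
  have aux : ∀ {P Q : Finset S}, P ∈ T → Q ∈ T → P ∪ Q = L → ¬ K ⊆ P → Disjoint K P ∨ P ⊆ K := by
    intro P Q hP hQ _ hn
    rcases h.lam K hK P hP with h3 | h3 | h3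
    · exact absurd h3 hn
    · exact Or.inr h3
    · exact Or.inl h3
  by_contra hcon
  rw [not_or] at hcon
  have a1 := aux h1 h2 hu hcon.1
  have a2 := aux h2 h1 (by rw [union_comm]; exact hu) hcon.2
  rcases a1 with a1 | a1
  · apply hcon.2
    intro x hx
    have h3 : x ∈ L1 ∪ L2 := by rw [hu]; exact hKL hx
    rcases mem_union.1 h3 with h4 | h4
    · exact absurd h4 (disjoint_left.1 a1 hx)
    · exact h4
  · rcases a2 with a2 | a2
    · apply hcon.1
      intro x hx
      have h3 : x ∈ L1 ∪ L2 := by rw [hu]; exact hKL hx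
      rcases mem_union.1 h3 with h4 | h4
      · exact h4
      · exact absurd h4 (disjoint_left.1 a2 hx)
    · exact hne (Subset.antisymm hKL (by rw [← hu]; exact union_subset a1 a2))

/-- the complex of a binary tree is a cross polytope -/
theorem IsTree.subArr : SubArr (nestG T) (Fintype.card S - 1) := by
  classical
  set ι := {K : Finset S // K ∈ T ∧ 2 ≤ K.card} with hι
  have hcard : Fintype.card ι = Fintype.card S - 1 := by
    have h1 := h.count
    rw [card_univ] at h1
    have h2 : Fintype.card ι = (T.filter fun K => 2 ≤ K.card).card :=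
      Fintype.card_of_subtype _ fun K => by rw [mem_filter]
    omega
  have hdec : ∀ K : ι, ∃ p : Finset S × Finset S, p.1 ∈ T ∧ p.2 ∈ T ∧ Disjoint p.1 p.2 ∧
      p.1 ∪ p.2 = K.1 := by
    intro K
    obtain ⟨K1, h1, K2, h2, h3, h4⟩ := h.dec K.1 K.2.1 K.2.2
    exact ⟨(K1, K2), h1, h2, h3, h4⟩
  choose p hp1 hp2 hpd hpu using hdec
  have hpne : ∀ K : ι, (p K).1.Nonempty ∧ (p K).2.Nonempty := fun K => ⟨h.ne _ (hp1 K), h.ne _ (hp2 K)⟩
  -- the children
  set c : ι × Bool → Finset S := fun x => if x.2 then (p x.1).1 else (p x.1).2 with hc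
  have hcT : ∀ x, c x ∈ T := by
    rintro ⟨K, b⟩
    cases b
    · exact hp2 K
    · exact hp1 K
  have hcsub : ∀ x, c x ⊆ x.1.1 := by
    rintro ⟨K, b⟩
    rw [← hpu K]
    cases b
    · exact subset_union_right
    · exact subset_union_left
  have hcne : ∀ x, c x ≠ x.1.1 := by
    rintro ⟨K, b⟩ h1
    have h2 := hpu K
    cases b
    · obtain ⟨z, hz⟩ := (hpne K).1
      have h3 : (p K).2 = K.1 := h1
      have h4 : z ∈ (p K).2 := by
        rw [h3, ← h2]
        exact mem_union_left _ hz
      exact disjoint_left.1 (hpd K) hz h4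
    · obtain ⟨z, hz⟩ := (hpne K).2
      have h3 : (p K).1 = K.1 := h1
      have h4 : z ∈ (p K).1 := by
        rw [h3, ← h2]
        exact mem_union_right _ hz
      exact disjoint_left.1 (hpd K) h4 hz
  have hcu : ∀ x, c x ≠ univ := by
    intro x h1
    apply hcne x
    rw [h1]
    exact (univ_subset_iff.1 (by rw [← h1]; exact hcsub x)).symm
  -- a member inside a node is inside one of the children
  have hchild : ∀ (K : ι) (J : Finset S), J ∈ T → J ⊆ K.1 → J ≠ K.1 → ∃ b, J ⊆ c (K, b) := by
    intro K J hJ hJK hne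
    rcases h.half hJ (hp1 K) (hp2 K) (hpd K) (hpu K) hJK hne with h1 | h1
    · exact ⟨true, h1⟩
    · exact ⟨false, h1⟩
  -- nodes with a common child are equal
  have hnode : ∀ (K K' : ι) (b b' : Bool), c (K, b) = c (K', b') → K = K' := by
    have aux : ∀ (K K' : ι) (b b' : Bool), c (K, b) = c (K', b') → K.1 ⊆ K'.1 → K = K' := by
      intro K K' b b' h1 h2
      by_contra h3
      have h4 : K.1 ≠ K'.1 := fun h5 => h3 (Subtype.ext h5)
      obtain ⟨b'', h5⟩ := hchild K' K.1 K.2.1 h2 h4
      have h6 : c (K', b') ⊆ c (K', b'') := by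
        rw [← h1]
        exact (hcsub (K, b)).trans h5
      have h7 : b' = b'' := by
        by_contra h8
        obtain ⟨z, hz⟩ := h.ne _ (hcT (K', b'))
        have h9 := h6 hz
        have h10 := hpd K'
        rw [disjoint_left] at h10
        cases b' <;> cases b''
        · exact h8 rfl
        · exact h10 h9 hz
        · exact h10 hz h9
        · exact h8 rfl
      rw [← h7, ← h1] at h5
      exact hcne (K, b) (Subset.antisymm (hcsub (K, b)) h5)
    intro K K' b b' h1
    rcases h.lam K.1 K.2.1 K'.1 K'.2.1 with h2 | h2 | h2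
    · exact aux K K' b b' h1 h2
    · exact (aux K' K b' b h1.symm h2).symm
    · exfalso
      obtain ⟨z, hz⟩ := h.ne _ (hcT (K, b))
      exact disjoint_left.1 h2 (hcsub _ hz) (hcsub (K', b') (h1 ▸ hz))
  have hcinj : Function.Injective c := by
    rintro ⟨K, b⟩ ⟨K', b'⟩ h1
    have h2 := hnode K K' b b' h1
    subst h2
    have h3 : b = b' := by
      by_contra h4
      obtain ⟨z, hz⟩ := h.ne _ (hcT (K, b))
      have h5 : z ∈ c (K, b') := h1 ▸ hz
      have h6 := hpd K
      rw [disjoint_left] at h6
      cases b <;> cases b'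
      · exact h4 rfl
      · exact h6 h5 hz
      · exact h6 hz h5
      · exact h4 rfl
    rw [h3]
  have hcsurj : ∀ J ∈ T, J ≠ univ → ∃ x, c x = J := by
    intro J hJ hJu
    obtain ⟨K, hK, hmin⟩ := exists_min_image (T.filter fun K => J ⊂ K) (fun K => K.card)
      ⟨univ, by rw [mem_filter]; exact ⟨h.top, (ssubset_univ_iff).2 hJu⟩⟩
    rw [mem_filter] at hK
    have hKc : 2 ≤ K.card := by
      have h1 := card_lt_card hK.2
      have h2 := card_pos.2 (h.ne J hJ)
      omega
    obtain ⟨b, hb⟩ := hchild ⟨K, hK.1, hKc⟩ J hJ hK.2.subset hK.2.ne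
    refine ⟨(⟨K, hK.1, hKc⟩, b), ?_⟩
    by_contra h1
    have h2 : J ⊂ c (⟨K, hK.1, hKc⟩, b) := hb.ssubset_of_ne (fun h3 => h1 h3.symm)
    have h3 := hmin (c (⟨K, hK.1, hKc⟩, b)) (by
      rw [mem_filter]
      exact ⟨hcT _, h2⟩)
    have h4 : c (⟨K, hK.1, hKc⟩, b) ⊂ K :=
      (hcsub (⟨K, hK.1, hKc⟩, b)).ssubset_of_ne (hcne (⟨K, hK.1, hKc⟩, b))
    exact absurd (card_lt_card h4) (by omega)
  let e0 : ι × Bool → {J : Finset S // J ∈ T ∧ J ≠ univ} := fun x => ⟨c x, hcT x, hcu x⟩
  have he0 : Function.Bijective e0 := by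
    constructor
    · intro x y hxy
      exact hcinj (Subtype.ext_iff.1 hxy)
    · rintro ⟨J, hJ, hJu⟩
      obtain ⟨x, hx⟩ := hcsurj J hJ hJu
      exact ⟨x, Subtype.ext hx⟩
  let e : {J : Finset S // J ∈ T ∧ J ≠ univ} ≃ ι × Bool := (Equiv.ofBijective e0 he0).symm
  have hec : ∀ J, c (e J) = J.1 := by
    intro J
    have h1 : e0 (e J) = J := (Equiv.ofBijective e0 he0).apply_symm_apply J
    exact Subtype.ext_iff.1 h1
  have hadj : ∀ u v, (nestG T).Adj u v ↔ (e u).1 ≠ (e v).1 := by
    intro u v
    rw [nestG_adj]
    constructor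
    · rintro ⟨h1, h2⟩ h3
      -- two children of the same node
      obtain ⟨⟨K, b⟩, hb⟩ : ∃ x, x = e u := ⟨_, rfl⟩
      obtain ⟨⟨K', b'⟩, hb'⟩ : ∃ x, x = e v := ⟨_, rfl⟩
      have hu1 := hec u
      have hv1 := hec v
      rw [← hb] at hu1 h3
      rw [← hb'] at hv1 h3
      have hKK : K = K' := h3
      subst hKK
      have hbb : b ≠ b' := by
        rintro rfl
        exact h1 (Subtype.ext (hu1.symm.trans hv1))
      have hdisj : Disjoint u.1 v.1 := by
        rw [← hu1, ← hv1]
        cases b <;> cases b'
        · exact absurd rfl hbb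
        · exact (hpd K).symm
        · exact hpd K
        · exact absurd rfl hbb
      have hun : u.1 ∪ v.1 = K.1 := by
        rw [← hu1, ← hv1]
        cases b <;> cases b'
        · exact absurd rfl hbb
        · rw [union_comm]
          exact hpu K
        · exact hpu K
        · exact absurd rfl hbb
      rcases h2 with h2 | h2 | ⟨_, h2⟩
      · obtain ⟨z, hz⟩ := h.ne _ u.2.1
        exact disjoint_left.1 hdisj hz (h2 hz)
      · obtain ⟨z, hz⟩ := h.ne _ v.2.1
        exact disjoint_left.1 hdisj (h2 hz) hz
      · exact h2 (by rw [hun]; exact K.2.1)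
    · intro h1
      refine ⟨fun h2 => h1 (by rw [h2]), ?_⟩
      rcases h.lam u.1 u.2.1 v.1 v.2.1 with h2 | h2 | h2
      · exact Or.inl h2
      · exact Or.inr (Or.inl h2)
      · refine Or.inr (Or.inr ⟨h2, fun h3 => h1 ?_⟩)
        -- the union is a node; `u` and `v` are its children
        have hune := h.ne _ u.2.1
        have hvne := h.ne _ v.2.1
        have hc2 : 2 ≤ (u.1 ∪ v.1).card := by
          rw [card_union_of_disjoint h2]
          have := card_pos.2 hune
          have := card_pos.2 hvne
          omega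
        have hu' : u.1 ≠ u.1 ∪ v.1 := by
          intro h4
          obtain ⟨z, hz⟩ := hvne
          have h5 : z ∈ u.1 := by rw [h4]; exact mem_union_right _ hz
          exact disjoint_left.1 h2 h5 hz
        have hv' : v.1 ≠ u.1 ∪ v.1 := by
          intro h4
          obtain ⟨z, hz⟩ := hune
          have h5 : z ∈ v.1 := by rw [h4]; exact mem_union_left _ hz
          exact disjoint_left.1 h2 hz h5
        let N : ι := ⟨u.1 ∪ v.1, h3, hc2⟩
        obtain ⟨b, hb⟩ := hchild N u.1 u.2.1 subset_union_left hu'
        obtain ⟨b', hb'⟩ := hchild N v.1 v.2.1 subset_union_right hv'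
        have hbb : b ≠ b' := by
          rintro rfl
          exact hcne (N, b) (Subset.antisymm (hcsub (N, b)) (union_subset hb hb'))
        have hcd : Disjoint (c (N, b)) (c (N, b')) := by
          cases b <;> cases b'
          · exact absurd rfl hbb
          · exact (hpd N).symm
          · exact hpd N
          · exact absurd rfl hbb
        have e1 : c (N, b) = u.1 := by
          refine Subset.antisymm (fun z hz => ?_) hb
          rcases mem_union.1 (hcsub (N, b) hz) with h4 | h4
          · exact h4
          · exact absurd (hb' h4) (disjoint_left.1 hcd hz)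
        have e2 : c (N, b') = v.1 := by
          refine Subset.antisymm (fun z hz => ?_) hb'
          rcases mem_union.1 (hcsub (N, b') hz) with h4 | h4
          · exact absurd hz (disjoint_left.1 hcd (hb h4))
          · exact h4
        have f1 : e u = (N, b) := hcinj ((hec u).trans e1.symm)
        have f2 : e v = (N, b') := hcinj ((hec v).trans e2.symm)
        rw [f1, f2]
  have hfin : Finite {J : Finset S // J ∈ T ∧ J ≠ univ} := inferInstance
  refine ⟨_, nestG T, hfin, ?_, ⟨SimpleGraph.Iso.refl⟩⟩
  rw [← hcard]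
  exact cross_arr (nestG T) e hadj

end cross

/-- The nested complex of a connected flag building set on `n + 1` points is obtained from the cross polytope of
dimension `n` by subdivisions of edges. -/
theorem IsFB.subArr {B : Finset (Finset S)} (hB : IsFB B) : SubArr (nestG B) (Fintype.card S - 1) := by
  classical
  obtain ⟨T, hTB, hT⟩ := exists_tree hB _ univ hB.top le_rfl
  have key : ∀ n : ℕ, ∀ A : Finset (Finset S), IsFB A → A ⊆ B → (B \ A).card ≤ n →
      SubArr (nestG A) (Fintype.card S - 1) → SubArr (nestG B) (Fintype.card S - 1) := by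
    intro n
    induction n with
    | zero =>
      intro A hA hAB hc hs
      have h1 : B \ A = ∅ := card_eq_zero.1 (by omega)
      have h2 : A = B := Subset.antisymm hAB (sdiff_eq_empty_iff_subset.1 h1)
      rwa [← h2]
    | succ n ih =>
      intro A hA hAB hc hs
      by_cases h1 : A = B
      · rwa [← h1]
      · obtain ⟨I, hI, hIA, hA1, I1, h2, I2, h3, hd, hu⟩ := exists_new hA hB hAB h1
        have hIu : I ≠ univ := fun h4 => hIA (h4 ▸ hA.top)
        have h4 : I1 ≠ univ := by
          intro h5
          apply hIu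
          rw [← hu, h5]
          ext z
          simp
        have h5 : I2 ≠ univ := by
          intro h6
          apply hIu
          rw [← hu, h6]
          ext z
          simp
        have hne : I1 ≠ I2 := by
          intro h6
          obtain ⟨z, hz⟩ := hA.ne I1 h2
          exact disjoint_left.1 hd hz (h6 ▸ hz)
        refine ih (insert I A) hA1 (insert_subset hI hAB) ?_ ?_
        · have h6 : B \ insert I A ⊂ B \ A := by
            refine ssubset_of_subset_not_subset (sdiff_subset_sdiff Subset.rfl (subset_insert I A)) ?_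
            intro h7
            have h8 := h7 (mem_sdiff.2 ⟨hI, hIA⟩)
            exact (mem_sdiff.1 h8).2 (mem_insert_self I A)
          have h7 := card_lt_card h6
          omega
        · have hadj : (nestG A).Adj ⟨I1, h2, h4⟩ ⟨I2, h3, h5⟩ := by
            rw [nestG_adj]
            refine ⟨fun h6 => hne (Subtype.ext_iff.1 h6), Or.inr (Or.inr ⟨hd, ?_⟩)⟩
            rw [hu]
            exact hIA
          exact (hs.subdiv hadj).iso (newIso hA hA1 hIA hIu ⟨I1, h2, h4⟩ ⟨I2, h3, h5⟩ hd hu)
  exact key _ T hT.isFB hTB le_rfl hT.subArr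

end Pool.Agent.H78.VN
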