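import Pool.Agent.H19.LI.Defs

/-!
# The universal cover of a cube complex is CAT(0), and the deck transformations

`IsCAT0 (C.cover x)` for every cube complex `C`; the group of the deck transformations of the cover acts freely,
transitively on the fibres, and geometrically if `C` has finitely many vertices.
-/

set_option autoImplicit false

open Finset

namespace Pool.Agent.H78.VN

open Pool.Agent.H19.Cub Pool.Agent.H19.LI

theorem step_prepend {V : Type} {G : SimpleGraph V} (m : List V) {l l' : List V}
    (h : Step G l l') : Step G (m ++ l) (m ++ l') := by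
  cases h with
  | back a b v =>
    have h1 := Step.back (G := G) (m ++ a) b v
    simpa using h1
  | square a b u v h =>
    have h1 := Step.square (G := G) (m ++ a) b u v h
    simpa using h1

variable {V X : Type} [DecidableEq V] {C : CubeComplex V X}

/-- the reversed path -/
theorem isPath_rev {x : X} {l : List V} (h : C.IsPath x l) :
    C.IsPath (C.fin x l) l.reverse ∧ C.fin (C.fin x l) l.reverse = x := by
  induction l generalizing x with
  | nil => exact ⟨trivial, rfl⟩
  | cons v l ih =>
    obtain ⟨h1, h2⟩ := h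
    obtain ⟨h3, h4⟩ := ih h2
    rw [List.reverse_cons]
    show C.IsPath (C.fin (C.nb v x) l) (l.reverse ++ [v]) ∧
      C.fin (C.fin (C.nb v x) l) (l.reverse ++ [v]) = x
    rw [C.isPath_append, C.fin_append, h4]
    exact ⟨⟨h3, C.lab_nb v x h1, trivial⟩, C.nb_nb v x h1⟩

theorem isPath_app {x : X} {l m : List V} (h : C.IsPath x l) (h' : C.IsPath (C.fin x l) m) :
    C.IsPath x (l ++ m) := (C.isPath_append x l m).2 ⟨h, h'⟩

/-- a path which is traversed back and forth is homotopic to the empty path -/
theorem mk_rev {y : X} (l : List V) {m : List V} (h1 : C.IsPath y (l.reverse ++ (l ++ m)))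
    (h' : C.IsPath y m) :
    (Quot.mk _ ⟨l.reverse ++ (l ++ m), h1⟩ : C.Cover y) = Quot.mk _ ⟨m, h'⟩ := by
  induction l with
  | nil => rfl
  | cons v l ih =>
    have h2 : C.IsPath y (l.reverse ++ (v :: v :: (l ++ m))) := by simpa using h1
    rw [C.isPath_append] at h2
    obtain ⟨h3, h4, h5, h6⟩ := h2
    rw [C.nb_nb v _ h4] at h6
    refine Eq.trans ?_ (ih (isPath_app h3 h6))
    apply Quot.sound
    have h7 := Step.back (G := C.graph) l.reverse (l ++ m) v
    simpa using h7

theorem proj_nbc {x : X} (c : C.Cover x) {v : V} (hv : v ∈ C.lab (C.proj x c)) :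
    C.proj x (C.nbc x v c) = C.nb v (C.proj x c) := by
  induction c using Quot.ind with
  | mk l =>
    rw [C.nbc_mk x v l hv]
    show C.fin x (l.1 ++ [v]) = _
    rw [C.fin_append]
    rfl

/-- paths of the cover -/
theorem isPath_cover {x : X} (c : C.Cover x) (p : List V) :
    (C.cover x).IsPath c p ↔ C.IsPath (C.proj x c) p := by
  induction p generalizing c with
  | nil => exact Iff.rfl
  | cons v p ih =>
    show (v ∈ C.lab (C.proj x c) ∧ (C.cover x).IsPath (C.nbc x v c) p) ↔
      (v ∈ C.lab (C.proj x c) ∧ C.IsPath (C.nb v (C.proj x c)) p)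
    refine and_congr_right fun hv => ?_
    rw [ih, proj_nbc c hv]

/-- the ends of the paths of the cover -/
theorem fin_cover {x : X} {l : List V} (hl : C.IsPath x l) {p : List V}
    (hp : C.IsPath (C.fin x l) p) :
    (C.cover x).fin (Quot.mk _ ⟨l, hl⟩ : C.Cover x) p = Quot.mk _ ⟨l ++ p, isPath_app hl hp⟩ := by
  induction p generalizing l with
  | nil =>
    show (Quot.mk _ ⟨l, hl⟩ : C.Cover x) = _
    congr 1
    exact Subtype.ext (List.append_nil l).symm
  | cons v p ih =>
    obtain ⟨h1, h2⟩ := hp
    show (C.cover x).fin (C.nbc x v (Quot.mk _ ⟨l, hl⟩)) p = _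
    rw [C.nbc_mk x v ⟨l, hl⟩ h1]
    have h3 : C.IsPath (C.fin x (l ++ [v])) p := by
      rw [C.fin_append]
      exact h2
    rw [ih _ h3]
    congr 1
    exact Subtype.ext (by simp)

/-- **The universal cover is connected and simply connected.** -/
theorem isCAT0_cover (C : CubeComplex V X) (x : X) : IsCAT0 (C.cover x) := by
  intro c
  induction c using Quot.ind with
  | mk l =>
    obtain ⟨l, hl⟩ := l
    have hr := isPath_rev hl
    have hp : ∀ m : {m : List V // C.IsPath x m},
        (C.cover x).IsPath (Quot.mk _ ⟨l, hl⟩ : C.Cover x) (l.reverse ++ m.1) := fun m =>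
      (isPath_cover _ _).2 (isPath_app hr.1 (by
        show C.IsPath (C.fin (C.fin x l) l.reverse) m.1
        rw [hr.2]
        exact m.2))
    let Φ : C.Cover x → (C.cover x).Cover (Quot.mk _ ⟨l, hl⟩ : C.Cover x) :=
      Quot.map (fun m => ⟨l.reverse ++ m.1, hp m⟩) fun m m' h => step_prepend l.reverse h
    refine Function.bijective_iff_has_inverse.2 ⟨Φ, ?_, ?_⟩
    · intro p
      induction p using Quot.ind with
      | mk p =>
        obtain ⟨p, hp1⟩ := p
        have hp2 : C.IsPath (C.fin x l) p := (isPath_cover _ _).1 hp1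
        show Φ ((C.cover x).fin (Quot.mk _ ⟨l, hl⟩ : C.Cover x) p) = _
        rw [fin_cover hl hp2]
        exact mk_rev (C := C.cover x) l (hp ⟨l ++ p, isPath_app hl hp2⟩) hp1
    · intro m
      induction m using Quot.ind with
      | mk m =>
        obtain ⟨m, hm⟩ := m
        have h1 : C.IsPath (C.fin x l) (l.reverse ++ m) := isPath_app hr.1 (by
          rw [hr.2]
          exact hm)
        show (C.cover x).fin (Quot.mk _ ⟨l, hl⟩ : C.Cover x) (l.reverse ++ m) = _
        rw [fin_cover hl h1]
        have h2 : C.IsPath x (l.reverse.reverse ++ (l.reverse ++ m)) := by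
          rw [List.reverse_reverse]
          exact isPath_app hl h1
        have h3 := mk_rev (C := C) l.reverse h2 hm
        rw [← h3]
        congr 1
        refine Subtype.ext ?_
        show l ++ (l.reverse ++ m) = l.reverse.reverse ++ (l.reverse ++ m)
        rw [List.reverse_reverse]

/-- the deck transformations of the universal cover -/
def deck (C : CubeComplex V X) (x : X) : Subgroup (Equiv.Perm (C.Cover x)) where
  carrier := {g | ∀ c, C.proj x (g c) = C.proj x c ∧
    ∀ v ∈ C.lab (C.proj x c), g (C.nbc x v c) = C.nbc x v (g c)}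
  mul_mem' := by
    intro a b ha hb c
    refine ⟨(ha (b c)).1.trans (hb c).1, fun v hv => ?_⟩
    show a (b (C.nbc x v c)) = C.nbc x v (a (b c))
    rw [(hb c).2 v hv, (ha (b c)).2 v (by rw [(hb c).1]; exact hv)]
  one_mem' := fun c => ⟨rfl, fun v _ => rfl⟩
  inv_mem' := by
    intro g hg c
    have h0 : ∀ d, g (g⁻¹ d) = d := fun d => g.apply_symm_apply d
    have h0' : ∀ d, g⁻¹ (g d) = d := fun d => g.symm_apply_apply d
    have h1 : C.proj x c = C.proj x (g⁻¹ c) := by
      have h2 := (hg (g⁻¹ c)).1
      rwa [h0] at h2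
    refine ⟨h1.symm, fun v hv => ?_⟩
    have h2 := (hg (g⁻¹ c)).2 v (by rw [← h1]; exact hv)
    rw [h0] at h2
    rw [← h2, h0']

/-- the deck transformations commute with paths -/
theorem deck_fin {x : X} {g : Equiv.Perm (C.Cover x)} (hg : g ∈ deck C x) (p : List V)
    (c : C.Cover x) (hp : (C.cover x).IsPath c p) :
    g ((C.cover x).fin c p) = (C.cover x).fin (g c) p := by
  induction p generalizing c with
  | nil => rfl
  | cons v p ih =>
    obtain ⟨h1, h2⟩ := hp
    show g ((C.cover x).fin (C.nbc x v c) p) = (C.cover x).fin (C.nbc x v (g c)) p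
    rw [← (hg c).2 v h1]
    exact ih _ h2

/-- any two points of the cover are joined by a path -/
theorem exists_path {x : X} (c d : C.Cover x) :
    ∃ p, (C.cover x).IsPath c p ∧ (C.cover x).fin c p = d := by
  obtain ⟨q, hq⟩ := (isCAT0_cover C x c).2 d
  induction q using Quot.ind with
  | mk q => exact ⟨q.1, q.2, hq⟩

theorem deck_free {x : X} {g : Equiv.Perm (C.Cover x)} (hg : g ∈ deck C x) {c : C.Cover x}
    (h : g c = c) : g = 1 := by
  ext d
  obtain ⟨p, hp, rfl⟩ := exists_path c d
  rw [deck_fin hg p c hp, h]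
  rfl

/-- composition with a closed path -/
def loopMap {x : X} (w : List V) (hw : C.IsPath x w) (hx : C.fin x w = x) (c : C.Cover x) :
    C.Cover x :=
  Quot.map (fun p : {p : List V // C.IsPath x p} =>
    (⟨w ++ p.1, isPath_app hw (by rw [hx]; exact p.2)⟩ : {p : List V // C.IsPath x p}))
    (fun _ _ h => step_prepend w h) c

theorem loopMap_inv {x : X} (w : List V) (hw : C.IsPath x w) (hx : C.fin x w = x)
    (hw' : C.IsPath x w.reverse) (hx' : C.fin x w.reverse = x) (c : C.Cover x) :
    loopMap w.reverse hw' hx' (loopMap w hw hx c) = c := by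
  induction c using Quot.ind with
  | mk p => exact mk_rev w _ p.2

/-- the deck transformation of a closed path -/
theorem exists_loop {x : X} (w : List V) (hw : C.IsPath x w) (hx : C.fin x w = x) :
    ∃ g ∈ deck C x, ∀ c, g c = loopMap w hw hx c := by
  have hr := isPath_rev hw
  rw [hx] at hr
  have h1 : ∀ (u : List V) (hu : C.IsPath x u) (hy : C.fin x u = x), u = w.reverse →
      ∀ c, loopMap w hw hx (loopMap u hu hy c) = c := by
    rintro u hu hy rfl c
    have h2 := loopMap_inv w.reverse hu hy (by rw [List.reverse_reverse]; exact hw)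
      (by rw [List.reverse_reverse]; exact hx) c
    simp only [List.reverse_reverse] at h2
    exact h2
  refine ⟨⟨loopMap w hw hx, loopMap w.reverse hr.1 hr.2, loopMap_inv w hw hx hr.1 hr.2,
    h1 _ hr.1 hr.2 rfl⟩, fun c => ?_, fun c => rfl⟩
  induction c using Quot.ind with
  | mk p =>
    have h3 : C.fin x (w ++ p.1) = C.fin x p.1 := by
      rw [C.fin_append, hx]
    refine ⟨h3, fun v hv => ?_⟩
    show loopMap w hw hx (C.nbc x v (Quot.mk _ p)) = C.nbc x v (loopMap w hw hx (Quot.mk _ p))
    rw [C.nbc_mk x v p hv]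
    show (Quot.mk _ ⟨w ++ (p.1 ++ [v]), _⟩ : C.Cover x) =
      C.nbc x v (Quot.mk _ ⟨w ++ p.1, _⟩)
    rw [C.nbc_mk x v _ (by rw [h3]; exact hv)]
    congr 1
    exact Subtype.ext (List.append_assoc _ _ _).symm

theorem deck_trans {x : X} {c d : C.Cover x} (h : C.proj x c = C.proj x d) :
    ∃ g ∈ deck C x, g c = d := by
  induction c using Quot.ind with
  | mk l =>
    induction d using Quot.ind with
    | mk m =>
      obtain ⟨l, hl⟩ := l
      obtain ⟨m, hm⟩ := m
      have h1 : C.fin x l = C.fin x m := h
      have hr := isPath_rev hl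
      have hw : C.IsPath x (m ++ l.reverse) := isPath_app hm (by
        rw [← h1]
        exact hr.1)
      have hx : C.fin x (m ++ l.reverse) = x := by
        rw [C.fin_append, ← h1]
        exact hr.2
      obtain ⟨g, hg, hgc⟩ := exists_loop _ hw hx
      refine ⟨g, hg, (hgc _).trans ?_⟩
      have h2 : C.IsPath (C.fin x m) (l.reverse ++ (l ++ [])) := by
        rw [List.append_nil, ← h1]
        refine isPath_app hr.1 ?_
        rw [hr.2]
        exact hl
      have h3 := mk_rev (C := C) l h2 trivial
      have h4 : ∀ (a b : List V) (ha : C.IsPath (C.fin x m) a) (hb : C.IsPath (C.fin x m) b),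
          (Quot.mk _ ⟨a, ha⟩ : C.Cover (C.fin x m)) = Quot.mk _ ⟨b, hb⟩ →
            (Quot.mk _ ⟨m ++ a, isPath_app hm ha⟩ : C.Cover x) =
              Quot.mk _ ⟨m ++ b, isPath_app hm hb⟩ := by
        intro a b ha hb hab
        exact congrArg (Quot.map (fun p : {p : List V // C.IsPath (C.fin x m) p} =>
          (⟨m ++ p.1, isPath_app hm p.2⟩ : {p : List V // C.IsPath x p}))
          (fun _ _ h => step_prepend m h)) hab
      have h5 := h4 _ _ _ _ h3
      refine Eq.trans ?_ (h5.trans ?_)
      · show (Quot.mk _ ⟨m ++ l.reverse ++ l, _⟩ : C.Cover x) = _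
        congr 1
        exact Subtype.ext (by simp)
      · congr 1
        exact Subtype.ext (by simp)

/-- **The deck group.** -/
theorem exists_deck (C : CubeComplex V X) (x : X) :
    ∃ (Γ : Type) (_ : Group Γ) (_ : MulAction Γ V) (_ : MulAction Γ (C.Cover x)),
      (∀ (g : Γ) (v : V), g • v = v) ∧ (∀ (g : Γ) (c : C.Cover x), C.proj x (g • c) = C.proj x c) ∧
      (∀ c d : C.Cover x, C.proj x c = C.proj x d → ∃ g : Γ, g • c = d) ∧
      (∀ (g : Γ) (c : C.Cover x), g • c = c → g = 1) ∧
      (Finite X → IsGeom Γ (C.cover x)) := by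
  classical
  let actV : MulAction (deck C x) V :=
    { smul := fun _ v => v
      one_smul := fun _ => rfl
      mul_smul := fun _ _ _ => rfl }
  refine ⟨deck C x, inferInstance, actV, inferInstance, fun _ _ => rfl, fun g c => (g.2 c).1,
    fun c d h => ?_, fun g c h => Subtype.ext (deck_free g.2 h), fun hX => ⟨fun _ _ _ => Iff.rfl,
      fun g v c => ?_, fun g v c hv => ?_, ?_, fun c => ?_⟩⟩
  · obtain ⟨g, hg, h1⟩ := deck_trans h
    exact ⟨⟨g, hg⟩, h1⟩
  · show v ∈ C.lab (C.proj x (g.1 c)) ↔ v ∈ C.lab (C.proj x c)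
    rw [(g.2 c).1]
  · exact ((g.2 c).2 v hv).symm
  · let _ : Fintype X := Fintype.ofFinite X
    let r : X → Option (C.Cover x) := fun y =>
      if h : ∃ c, C.proj x c = y then some h.choose else none
    refine ⟨(univ.image r).eraseNone, fun c => ?_⟩
    have h1 : ∃ d, C.proj x d = C.proj x c := ⟨c, rfl⟩
    obtain ⟨g, hg, h2⟩ := deck_trans (C := C) (c := c) (d := h1.choose) h1.choose_spec.symm
    refine ⟨⟨g, hg⟩, ?_⟩
    show g c ∈ _
    rw [h2, mem_eraseNone]
    exact mem_image.2 ⟨C.proj x c, mem_univ _, dif_pos h1⟩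
  · refine Set.Finite.subset (Set.finite_singleton (1 : deck C x)) fun g hg => ?_
    exact Subtype.ext (deck_free g.2 hg)

end Pool.Agent.H78.VN
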