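import Pool.Agent.H78.VN.Tree
import Pool.Agent.H78.RD.Sph

/-!
# Project VN: the links of the blow-ups of reflection arrangements
-/

set_option autoImplicit false

open Finset

namespace Pool.Agent.H78.VN

open Pool.Agent.H4.FD Pool.Agent.H78.RC Pool.Agent.H78.RD

variable {S : Type} [Fintype S] [DecidableEq S]

open Classical in
/-- the building set as a finite set, with the whole set -/
noncomputable def bldF (G : Finset S → Prop) : Finset (Finset S) :=
  univ.filter fun J => G J ∨ J = univ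

theorem mem_bldF {G : Finset S → Prop} {J : Finset S} : J ∈ bldF G ↔ G J ∨ J = univ := by
  classical
  unfold bldF
  rw [mem_filter]
  exact ⟨fun h => h.2, fun h => ⟨mem_univ _, h⟩⟩

variable {Q : Type} [Group Q] [Fintype Q] {M : CoxeterMatrix S} {π : M.Group →* Q}
  {G : Finset S → Prop}

omit [Fintype Q] in
theorem isFB_bldF (h : IsBlow M π G) : IsFB (bldF G) := by
  have h1 := isFB h
  refine ⟨fun J hJ => h1.ne J (mem_bldF.1 hJ), mem_bldF.2 h1.top, ?_, ?_⟩
  · intro J hJ K hK hJK
    refine mem_bldF.2 (h1.join J K (mem_bldF.1 hJ) (mem_bldF.1 hK) ?_)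
    rwa [← not_disjoint_iff_nonempty_inter]
  · intro J hJ hc
    obtain ⟨J1, J2, h2, h3, h4, h5⟩ := h1.flag J (mem_bldF.1 hJ) hc
    exact ⟨J1, mem_bldF.2 h2, J2, mem_bldF.2 h3, h4, h5⟩

/-- the link of the chamber `x` in the blow-up is the nested complex of the building set -/
theorem link_iso (h : IsBlow M π G) (x : Q) :
    Nonempty ((labGG M π G).comap (Subtype.val : {L // L ∈ labFG M π G x} → Finset Q) ≃g
      nestG (bldF G)) := by
  classical
  have hG : ∀ J : {J : Finset S // J ∈ bldF G ∧ J ≠ univ}, G J.1 := fun J =>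
    (mem_bldF.1 J.2.1).resolve_right J.2.2
  have hlab : ∀ J : {J : Finset S // J ∈ bldF G ∧ J ≠ univ},
      IsLabG M π G x (lbl M π x J.1) J.1 := fun J => ⟨hG J, rfl⟩
  let f : {J : Finset S // J ∈ bldF G ∧ J ≠ univ} → {L // L ∈ labFG M π G x} :=
    fun J => ⟨lbl M π x J.1, mem_labFG.2 ⟨J.1, hlab J⟩⟩
  have hf : Function.Bijective f := by
    constructor
    · intro J K hJK
      have h1 : lbl M π x J.1 = lbl M π x K.1 := Subtype.ext_iff.1 hJK
      exact Subtype.ext (isLabG_unique h (hlab J) (h1 ▸ hlab K))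
    · rintro ⟨L, hL⟩
      obtain ⟨J, hJ⟩ := mem_labFG.1 hL
      exact ⟨⟨J, mem_bldF.2 (Or.inl hJ.1), h.bld.proper J hJ.1⟩, Subtype.ext hJ.2⟩
  let e := Equiv.ofBijective f hf
  refine ⟨(⟨e, ?_⟩ : nestG (bldF G) ≃g _).symm⟩
  intro J K
  change (labGG M π G).Adj (lbl M π x J.1) (lbl M π x K.1) ↔ _
  rw [adj_iffG h (hlab J) (hlab K), nestG_adj, ne_eq, ne_eq, ← Subtype.ext_iff]
  have h1 := sph_sep_iff h (hG J) (hG K)
  rw [h1, mem_bldF]

/-- **The links of the blow-ups are iterated subdivisions of cross polytopes.** -/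
theorem link_subArr (h : IsBlow M π G) (x : Q) :
    SubArr ((labGG M π G).comap (Subtype.val : {L // L ∈ labFG M π G x} → Finset Q))
      (Fintype.card S - 1) := by
  obtain ⟨e⟩ := link_iso h x
  exact (isFB_bldF h).subArr.iso e

end Pool.Agent.H78.VN
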