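import Pool.Agent.H19.LI.Final
import Pool.Agent.H19.LG.Racg
import Pool.Agent.H4.FD.FinalP
import Pool.Agent.H4.FD.Stmt
import Pool.Agent.H78.RD.Blow
import Pool.Agent.H78.VN.Tree
import Pool.Agent.H78.VN.Link
import Pool.Agent.H78.VN.Deck

/-!
# The local-to-global theorem for the universal covers of finite cube complexes

`cover_l2zero`: the theorem for CAT(0) cube complexes contains the theorem for the universal covers of
finite cube complexes with labelled edges. `blow_l2zero`: the universal covers of the blow-ups of spheres and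
tori along the flats of reflection arrangements, and of the complexes with the same labels.
-/

set_option autoImplicit false

open Finset

namespace Pool.Agent.H78.VN

open Pool.Agent.H4.FD Pool.Agent.H4.FC Pool.Agent.H78.RC Pool.Agent.H78.RD Pool.Agent.H19.Cub
  Pool.Agent.H19.LG Pool.Agent.H19.LI Pool.Agent.H85.Fold Pool.Agent.H85.Fold2 Pool.Agent.H85.Fold3

/-- **Universal covers of finite cube complexes with labelled edges.** -/
theorem cover_l2zero {V X : Type} [DecidableEq V] [Finite X] (C : CubeComplex V X) (x : X) (i : ℕ)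
    (h : ∀ y, Pool.Agent.H4.Singer.L2HomologyZero (lk C y) i) : L2Zero (C.cover x) i := by
  obtain ⟨Γ, _, _, _, -, -, -, -, hg⟩ := exists_deck C x
  exact local_global_cat0 (isCAT0_cover C x) (hg inferInstance) i fun c => h (C.proj x c)

/-- The right-angled Coxeter groups over full subcomplexes of iterated edge subdivisions of simplicial
arrangements. -/
theorem l2_subArr {V W : Type} [DecidableEq V] [Fintype V] (L : SimpleGraph V)
    {H : SimpleGraph W} {n : ℕ} (hH : SubArr H n) (φ : V → W) (hφ : Function.Injective φ)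
    (hadj : ∀ u v, L.Adj u v ↔ H.Adj (φ u) (φ v)) (i : ℕ)
    (hi : n < 2 * i ∨ (Function.Surjective φ ∧ 2 * i ≠ n)) :
    Pool.Agent.H4.Singer.L2HomologyZero L i := by
  classical
  obtain ⟨W', H', hW', hH', ⟨e⟩⟩ := hH
  let _ : Fintype W' := Fintype.ofFinite W'
  rw [l2_racg]
  have hF : IsFoldSphere H' n := by
    have h1 : FoldedSphere H' n := Or.inl hH'
    exact h1.isFoldSphere
  refine mainP _ (fc_racg L) n H' hF (fun v => e (φ v)) (fun u v h => hφ (e.injective h))
    (fun u v => ?_) i (hi.imp_right fun h => ⟨e.surjective.comp h.1, h.2⟩)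
  rw [gr_adj, e.map_adj_iff]
  exact hadj u v

/-- **The universal covers of the blow-ups**, and of the finite cube complexes with the same labels. -/
theorem blow_l2zero {S : Type} [Fintype S] [DecidableEq S] {M : CoxeterMatrix S} {Q : Type} [Group Q]
    [Fintype Q] [DecidableEq Q] {π : M.Group →* Q} {G : Finset S → Prop} (h : IsBlow M π G)
    {X : Type} [Finite X] (C : CubeComplex (Finset Q) X) (hG : C.graph = (blowupG M π G h).graph)
    (r : X → Q) (hr : ∀ x, C.lab x ⊆ (blowupG M π G h).lab (r x)) (i : ℕ)
    (hi : Fintype.card S - 1 < 2 * i ∨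
      (∀ x, C.lab x = (blowupG M π G h).lab (r x)) ∧ 2 * i ≠ Fintype.card S - 1) (x : X) :
    L2Zero (C.cover x) i := by
  refine cover_l2zero C x i fun x => ?_
  let φ : {v // v ∈ C.lab x} → {L // L ∈ labFG M π G (r x)} := fun v => ⟨v.1, hr x v.2⟩
  have hφ : Function.Injective φ := by
    intro u v huv
    have h1 : (φ u).1 = (φ v).1 := congrArg Subtype.val huv
    exact Subtype.ext h1
  refine l2_subArr _ (link_subArr h (r x)) φ hφ (fun u v => ?_) i
    (hi.imp_right fun hi => ⟨fun L => ⟨⟨L.1, ?_⟩, rfl⟩, hi.2⟩)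
  · show C.graph.Adj u.1 v.1 ↔ _
    rw [hG]
    exact Iff.rfl
  · rw [hi.1 x]
    exact L.2

end Pool.Agent.H78.VN
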