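import Mathlib

/-!
# Project VN: nested complexes of flag building sets are edge subdivisions of cross polytopes

`B` is a family of subsets of a finite set `S` which contains `S`, with two meeting members their union, and all
of whose members with at least two elements are unions of two disjoint members (a connected flag building set).
-/

set_option autoImplicit false

open Finset

namespace Pool.Agent.H78.VN

variable {S : Type} [Fintype S] [DecidableEq S]

/-- a connected flag building set on `S` -/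
structure IsFB (B : Finset (Finset S)) : Prop where
  ne : ∀ J ∈ B, J.Nonempty
  top : univ ∈ B
  join : ∀ J ∈ B, ∀ K ∈ B, ¬ Disjoint J K → J ∪ K ∈ B
  dec : ∀ J ∈ B, 2 ≤ J.card → ∃ K ∈ B, ∃ L ∈ B, Disjoint K L ∧ K ∪ L = J

/-- the graph of the nested complex: the proper members of `B`; two of them are adjacent if they are nested, or
disjoint and their union is not in `B` -/
def nestG (B : Finset (Finset S)) : SimpleGraph {J : Finset S // J ∈ B ∧ J ≠ univ} where
  Adj J K := J ≠ K ∧ (J.1 ⊆ K.1 ∨ K.1 ⊆ J.1 ∨ (Disjoint J.1 K.1 ∧ J.1 ∪ K.1 ∉ B))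
  symm := ⟨fun J K h => ⟨h.1.symm, by
    rcases h.2 with h1 | h1 | ⟨h1, h2⟩
    · exact Or.inr (Or.inl h1)
    · exact Or.inl h1
    · exact Or.inr (Or.inr ⟨h1.symm, by rwa [union_comm]⟩)⟩⟩
  loopless := ⟨fun _ h => h.1 rfl⟩

theorem nestG_adj {B : Finset (Finset S)} {J K : {J : Finset S // J ∈ B ∧ J ≠ univ}} :
    (nestG B).Adj J K ↔ J ≠ K ∧ (J.1 ⊆ K.1 ∨ K.1 ⊆ J.1 ∨ (Disjoint J.1 K.1 ∧ J.1 ∪ K.1 ∉ B)) :=
  Iff.rfl

end Pool.Agent.H78.VN
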