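import Pool.Agent.H85.LG.Bridge
import Pool.Agent.H85.Fold2.Final
import Pool.Agent.H19.Cub.Transf
import Pool.Agent.H19.Cub.DgSph
import Pool.Agent.H78.RC.RInt
import Pool.Agent.H78.RD.Blow
import Pool.Agent.H78.VN.Link

/-!
# Project VN: cube complexes with nested links, from the links to the complex

`LinkSub Q n x`: the link of `x` is a full subcomplex of an iterated edge subdivision of a simplicial
arrangement in `ℝⁿ`; `LinkEq Q n x`: it is such a complex; `LinkNest`, `LinkNestEq`: the same for the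
nested complexes of connected flag building sets on `n + 1` points.
-/

set_option autoImplicit false

open Finset

namespace Pool.Agent.H78.VN

open Pool.Agent.H4.FD Pool.Agent.H78.RC Pool.Agent.H78.RD Pool.Agent.H19.Cub Pool.Agent.H19.LG
  Pool.Agent.H85.LG Pool.Agent.H85.Fold Pool.Agent.H85.Fold2 Pool.Agent.H85.Fold3

section

variable {V X : Type} [DecidableEq V] [Fintype V]

/-- The one-vertex complex over a folded sphere with independent vectors. -/
private theorem star_eqN (Q : CubeComplex V X) (x : X) {W : Type} [DecidableEq W] [Fintype W]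
    (H : SimpleGraph W) (n : ℕ) (hH : IsFoldSphereN H n) (φ : lkG Q x ≃g H) (i : ℕ)
    (hi : 2 * i ≠ n) : L2HomologyZero ((star Q x).cover ()) i := by
  classical
  obtain ⟨hS, m, p, a, hpa, hlin⟩ := hH
  let q : Fin n → V → ℝ := fun k v => if h : v ∈ Q.lab x then p (φ ⟨v, h⟩) k else 0
  let b : Fin m → V → ℝ := fun k v => if h : v ∈ Q.lab x then a (φ ⟨v, h⟩) k else 0
  have hq : ∀ (k : Fin n) (v : V) (h : v ∈ Q.lab x), q k v = p (φ ⟨v, h⟩) k := fun k v h =>
    dif_pos h
  have hb : ∀ (k : Fin m) (v : V) (h : v ∈ Q.lab x), b k v = a (φ ⟨v, h⟩) k := fun k v h =>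
    dif_pos h
  let T : V → V → ℝ := fun u v => ∑ k, q k u * q k v - ∑ k, b k u * b k v
  have hT : ∀ (u v : V) (hu : u ∈ Q.lab x) (hv : v ∈ Q.lab x),
      T u v = p (φ ⟨u, hu⟩) ⬝ᵥ p (φ ⟨v, hv⟩) - a (φ ⟨u, hu⟩) ⬝ᵥ a (φ ⟨v, hv⟩) := by
    intro u v hu hv
    show ∑ k, q k u * q k v - ∑ k, b k u * b k v = _
    simp only [hq _ u hu, hq _ v hv, hb _ u hu, hb _ v hv, dotProduct]
  have hT0 : ∀ u v : V, ¬ (u ∈ Q.lab x ∧ v ∈ Q.lab x) → T u v = 0 := by
    intro u v h
    show ∑ k, q k u * q k v - ∑ k, b k u * b k v = _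
    by_cases hu : u ∈ Q.lab x
    · have hv : v ∉ Q.lab x := fun hv => h ⟨hu, hv⟩
      have h1 : ∀ k, q k v = 0 := fun k => dif_neg hv
      have h2 : ∀ k, b k v = 0 := fun k => dif_neg hv
      simp [h1, h2]
    · have h1 : ∀ k, q k u = 0 := fun k => dif_neg hu
      have h2 : ∀ k, b k u = 0 := fun k => dif_neg hu
      simp [h1, h2]
  let E : Submodule ℝ (V → ℝ) :=
    { carrier := {f | (∀ v, f v ≠ 0 → v ∈ Q.lab x) ∧ ∀ k, ∑ v, q k v * f v = 0}
      zero_mem' := ⟨fun v h => absurd rfl h, fun k => by simp⟩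
      add_mem' := by
        rintro f g ⟨h1, h2⟩ ⟨h3, h4⟩
        refine ⟨fun v hv => ?_, fun k => ?_⟩
        · by_cases hf : f v = 0
          · exact h3 v fun hg => hv (by simp [hf, hg])
          · exact h1 v hf
        · simp only [Pi.add_apply, mul_add, sum_add_distrib, h2, h4, add_zero]
      smul_mem' := by
        rintro c f ⟨h1, h2⟩
        refine ⟨fun v hv => h1 v fun h => hv (by simp [h]), fun k => ?_⟩
        have h3 : ∀ v, q k v * (c • f) v = c * (q k v * f v) := fun v => by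
          simp only [Pi.smul_apply, smul_eq_mul]
          ring
        simp only [h3, ← mul_sum, h2, mul_zero] }
  have hquad : ∀ f : V → ℝ, ∑ u, ∑ v, f u * f v * T u v =
      ∑ k, (∑ v, q k v * f v) ^ 2 - ∑ k, (∑ v, b k v * f v) ^ 2 := by
    intro f
    have h1 : ∀ {l : ℕ} (c : Fin l → V → ℝ), ∑ k, (∑ v, c k v * f v) ^ 2 =
        ∑ u, ∑ v, f u * f v * ∑ k, c k u * c k v := by
      intro l c
      have h2 : ∀ k, (∑ v, c k v * f v) ^ 2 = ∑ u, ∑ v, f u * f v * (c k u * c k v) := by
        intro k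
        rw [sq, sum_mul_sum]
        refine sum_congr rfl fun u _ => sum_congr rfl fun v _ => ?_
        ring
      simp only [h2]
      rw [sum_comm]
      refine sum_congr rfl fun u _ => ?_
      rw [sum_comm]
      refine sum_congr rfl fun v _ => ?_
      rw [mul_sum]
    rw [h1, h1, ← sum_sub_distrib]
    refine sum_congr rfl fun u _ => ?_
    rw [← sum_sub_distrib]
    refine sum_congr rfl fun v _ => ?_
    show f u * f v * (∑ k, q k u * q k v - ∑ k, b k u * b k v) = _
    ring
  have hneg : ∀ f ∈ E, f ≠ 0 → ∑ u, ∑ v, f u * f v * T u v < 0 := by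
    rintro f ⟨hf1, hf2⟩ hf
    rw [hquad]
    have h1 : ∑ k, (∑ v, q k v * f v) ^ 2 = 0 := sum_eq_zero fun k _ => by rw [hf2 k, sq, mul_zero]
    rw [h1, zero_sub, neg_lt_zero]
    by_contra hn
    have h2 : ∑ k, (∑ v, b k v * f v) ^ 2 = 0 :=
      le_antisymm (not_lt.1 hn) (sum_nonneg fun k _ => sq_nonneg _)
    have h3 : ∀ k, ∑ v, b k v * f v = 0 := by
      intro k
      have h4 := (sum_eq_zero_iff_of_nonneg fun k _ => sq_nonneg _).1 h2 k (mem_univ k)
      exact pow_eq_zero_iff two_ne_zero |>.1 h4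
    apply hf
    have h5 := Fintype.linearIndependent_iff.1 hlin (fun w => f (φ.symm w).1) (by
      funext k
      rw [Finset.sum_apply, Pi.zero_apply, ← h3 k]
      have h6 : ∑ v, b k v * f v = ∑ v ∈ Q.lab x, b k v * f v := by
        symm
        refine sum_subset (subset_univ _) fun v _ hv => ?_
        have h7 : f v = 0 := by
          by_contra h7
          exact hv (hf1 v h7)
        rw [h7, mul_zero]
      rw [h6, ← sum_attach (Q.lab x)]
      show ∑ w : W, (f (φ.symm w).1 • a w) k = ∑ v : {v // v ∈ Q.lab x}, b k v.1 * f v.1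
      symm
      refine sum_equiv φ.toEquiv (fun _ => ⟨fun _ => mem_univ _, fun _ => mem_univ _⟩) ?_
      rintro v -
      show b k v.1 * f v.1 = (f (φ.symm (φ v)).1 • a (φ v)) k
      rw [φ.symm_apply_apply, Pi.smul_apply, smul_eq_mul, hb k v.1 v.2]
      ring)
    funext v
    by_contra hv
    have h6 := h5 (φ ⟨v, hf1 v hv⟩)
    rw [φ.symm_apply_apply] at h6
    exact hv h6
  have hsymm : ∀ u v, T u v = T v u := by
    intro u v
    show ∑ k, q k u * q k v - ∑ k, b k u * b k v = ∑ k, q k v * q k u - ∑ k, b k v * b k u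
    congr 1
    · exact sum_congr rfl fun k _ => mul_comm _ _
    · exact sum_congr rfl fun k _ => mul_comm _ _
  obtain ⟨T', h1, h2, h3, h4⟩ := exists_int (ι := Unit) T hsymm (fun _ => E) fun _ => hneg
  have hIT : IsT (star Q x).graph T' := by
    refine ⟨h1, fun u v huv => h2 u v ?_⟩
    by_cases h : u ∈ Q.lab x ∧ v ∈ Q.lab x
    · rw [hT u v h.1 h.2, sub_eq_zero]
      refine hpa.zero _ _ ?_
      rcases huv with huv | huv
      · exact Or.inl (congrArg φ (Subtype.ext huv))
      · exact Or.inr (φ.map_adj_iff.2 huv)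
    · exact hT0 u v h
  have hfold : IsFoldOn (star Q x).graph T' n (Q.lab x) := by
    refine ⟨sphere_iso φ hS, ?_, q, fun f hf1 hf2 hf3 => h4 () f ⟨hf1, hf3⟩ hf2⟩
    intro u hu v hv huv hn
    apply h3
    rw [hT u v hu hv, sub_neg]
    refine hpa.neg _ _ (fun h => huv ?_) fun h => hn ?_
    · exact congrArg Subtype.val (φ.injective h)
    · exact φ.map_adj_iff.1 h
  exact CubeComplex.general (star Q x) T' hIT i (fun _ => ⟨n, Q.lab x, hfold, Or.inr ⟨rfl, hi⟩⟩) ()

/-- The one-vertex complex over an iterated edge subdivision of a simplicial arrangement. -/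
theorem star_subArr (Q : CubeComplex V X) (x : X) {W : Type} {H : SimpleGraph W} {n : ℕ}
    (hH : SubArr H n) (φ : {v // v ∈ Q.lab x} → W) (hφ : Function.Injective φ)
    (hadj : ∀ u v, Q.graph.Adj u.1 v.1 ↔ H.Adj (φ u) (φ v)) (i : ℕ)
    (hi : n < 2 * i ∨ (Function.Surjective φ ∧ 2 * i ≠ n)) :
    L2HomologyZero ((star Q x).cover ()) i := by
  classical
  obtain ⟨W', H', hW', hH', ⟨e⟩⟩ := hH
  let _ : Fintype W' := Fintype.ofFinite W'
  have hN : IsFoldSphereN H' n := hH'.isFoldSphereN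
  rcases hi with hi | ⟨hs, hi⟩
  · refine star_l2 Q x i (main_FV (lkG Q x) n (FV.fold n univ W' inferInstance inferInstance H'
      hN.isFoldSphere (fun v => e (φ v)) (fun u _ v _ h => hφ (e.injective h))
      fun u _ v _ => ?_) i hi)
    rw [e.map_adj_iff]
    exact hadj u v
  · let f : lkG Q x ≃g H' :=
      { toEquiv := (Equiv.ofBijective φ ⟨hφ, hs⟩).trans e.toEquiv
        map_rel_iff' := by
          intro u v
          show H'.Adj (e (φ u)) (e (φ v)) ↔ _
          rw [e.map_adj_iff]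
          exact (hadj u v).symm }
    exact star_eqN Q x H' n hN f i hi

/-- **The one-vertex complexes over nested complexes.** -/
theorem star_nest (Q : CubeComplex V X) (x : X) {S : Type} [Fintype S] [DecidableEq S]
    {B : Finset (Finset S)} (hB : IsFB B)
    (φ : {v // v ∈ Q.lab x} → {J : Finset S // J ∈ B ∧ J ≠ univ}) (hφ : Function.Injective φ)
    (hadj : ∀ u v, Q.graph.Adj u.1 v.1 ↔ (nestG B).Adj (φ u) (φ v)) (i : ℕ)
    (hi : Fintype.card S - 1 < 2 * i ∨ (Function.Surjective φ ∧ 2 * i ≠ Fintype.card S - 1)) :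
    L2HomologyZero ((star Q x).cover ()) i :=
  star_subArr Q x hB.subArr φ hφ hadj i hi

end

/-- **The one-vertex complexes over the links of the blow-ups.** -/
theorem star_blow {S : Type} [Fintype S] [DecidableEq S] {M : CoxeterMatrix S} {Q : Type} [Group Q]
    [Fintype Q] [DecidableEq Q] {π : M.Group →* Q} {G : Finset S → Prop} (h : IsBlow M π G)
    {X : Type} (C : CubeComplex (Finset Q) X) (hG : C.graph = (blowupG M π G h).graph) (r : X → Q)
    (hr : ∀ x, C.lab x ⊆ (blowupG M π G h).lab (r x)) (i : ℕ)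
    (hi : Fintype.card S - 1 < 2 * i ∨
      (∀ x, C.lab x = (blowupG M π G h).lab (r x)) ∧ 2 * i ≠ Fintype.card S - 1) (x : X) :
    L2HomologyZero ((star C x).cover ()) i := by
  let φ : {v // v ∈ C.lab x} → {L // L ∈ labFG M π G (r x)} := fun v => ⟨v.1, hr x v.2⟩
  have hφ : Function.Injective φ := by
    intro u v huv
    have h1 : (φ u).1 = (φ v).1 := congrArg Subtype.val huv
    exact Subtype.ext h1
  refine star_subArr C x (link_subArr h (r x)) φ hφ (fun u v => ?_) i
    (hi.imp_right fun hi => ⟨fun L => ⟨⟨L.1, ?_⟩, rfl⟩, hi.2⟩)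
  · rw [hG]
    exact Iff.rfl
  · rw [hi.1 x]
    exact L.2

end Pool.Agent.H78.VN
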