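import Pool.Agent.H78.VN.Defs
import Pool.Agent.H85.Fold4.Base

/-!
# Project VN: adding one member to a building set subdivides one edge
-/

set_option autoImplicit false

open Finset

namespace Pool.Agent.H78.VN

open Pool.Agent.H85.Fold4

variable {S : Type} [Fintype S] [DecidableEq S]

/-- all singletons are members -/
theorem IsFB.single {B : Finset (Finset S)} (h : IsFB B) (s : S) : {s} ∈ B := by
  have key : ∀ n : ℕ, ∀ J ∈ B, J.card ≤ n → s ∈ J → {s} ∈ B := by
    intro n
    induction n with
    | zero =>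
      intro J _ hJ hs
      have h1 : 0 < J.card := card_pos.2 ⟨s, hs⟩
      omega
    | succ n ih =>
      intro J hJ hn hs
      by_cases h1 : 2 ≤ J.card
      · obtain ⟨K, hK, L, hL, hd, hu⟩ := h.dec J hJ h1
        have hc : K.card + L.card = J.card := by rw [← hu, card_union_of_disjoint hd]
        have hK0 := card_pos.2 (h.ne K hK)
        have hL0 := card_pos.2 (h.ne L hL)
        rw [← hu, mem_union] at hs
        rcases hs with hs | hs
        · exact ih K hK (by omega) hs
        · exact ih L hL (by omega) hs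
      · have h2 : J.card = 1 := by
          have := card_pos.2 ⟨s, hs⟩
          omega
        obtain ⟨a, ha⟩ := card_eq_one.1 h2
        rw [ha, mem_singleton] at hs
        rw [hs, ← ha]
        exact hJ
  exact key _ univ h.top le_rfl (mem_univ s)

/-- A member inside the union of three disjoint sets, no two of which have their union in `B`, lies in one of
them. -/
theorem IsFB.three {B : Finset (Finset S)} (h : IsFB B) {X Y Z : Finset S} (hX : X ∈ B) (hY : Y ∈ B)
    (hZ : Z ∈ B) (hXY : X ∪ Y ∉ B) (hXZ : X ∪ Z ∉ B) (hYZ : Y ∪ Z ∉ B) :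
    ∀ n : ℕ, ∀ J ∈ B, J.card ≤ n → J ⊆ X ∪ Y ∪ Z → J ⊆ X ∨ J ⊆ Y ∨ J ⊆ Z := by
  -- a member inside the union of two of them lies in one of them
  have two : ∀ P ∈ B, ∀ Q ∈ B, P ∪ Q ∉ B → ∀ J ∈ B, J ⊆ P ∪ Q → J ⊆ P ∨ J ⊆ Q := by
    intro P hP Q hQ hPQ J hJ hs
    by_cases h1 : Disjoint J P
    · right
      intro z hz
      rcases mem_union.1 (hs hz) with h2 | h2
      · exact absurd h2 (disjoint_left.1 h1 hz)
      · exact h2
    by_cases h2 : Disjoint J Q
    · left
      intro z hz
      rcases mem_union.1 (hs hz) with h3 | h3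
      · exact h3
      · exact absurd h3 (disjoint_left.1 h2 hz)
    exfalso
    have h3 := h.join J hJ P hP h1
    have h4 : ¬ Disjoint (J ∪ P) Q := fun h5 => h2 (h5.mono_left subset_union_left)
    have h5 := h.join _ h3 Q hQ h4
    rw [union_assoc, union_eq_right.2 hs] at h5
    exact hPQ h5
  intro n
  induction n with
  | zero =>
    intro J hJ hn _
    have := card_pos.2 (h.ne J hJ)
    omega
  | succ n ih =>
    intro J hJ hn hs
    by_cases h1 : 2 ≤ J.card
    · obtain ⟨K, hK, L, hL, hd, hu⟩ := h.dec J hJ h1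
      have hc : K.card + L.card = J.card := by rw [← hu, card_union_of_disjoint hd]
      have hK0 := card_pos.2 (h.ne K hK)
      have hL0 := card_pos.2 (h.ne L hL)
      have hKJ : K ⊆ J := hu ▸ subset_union_left
      have hLJ : L ⊆ J := hu ▸ subset_union_right
      have a1 := ih K hK (by omega) (hKJ.trans hs)
      have a2 := ih L hL (by omega) (hLJ.trans hs)
      have sub : ∀ {P Q : Finset S}, K ⊆ P → L ⊆ Q → J ⊆ P ∪ Q := fun hP hQ => by
        rw [← hu]
        exact union_subset_union hP hQ
      rcases a1 with a1 | a1 | a1 <;> rcases a2 with a2 | a2 | a2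
      · exact Or.inl (by rw [← hu]; exact union_subset a1 a2)
      · rcases two X hX Y hY hXY J hJ (sub a1 a2) with h2 | h2
        · exact Or.inl h2
        · exact Or.inr (Or.inl h2)
      · rcases two X hX Z hZ hXZ J hJ (sub a1 a2) with h2 | h2
        · exact Or.inl h2
        · exact Or.inr (Or.inr h2)
      · rcases two X hX Y hY hXY J hJ (by rw [union_comm]; exact sub a1 a2) with h2 | h2
        · exact Or.inl h2
        · exact Or.inr (Or.inl h2)
      · exact Or.inr (Or.inl (by rw [← hu]; exact union_subset a1 a2))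
      · rcases two Y hY Z hZ hYZ J hJ (sub a1 a2) with h2 | h2
        · exact Or.inr (Or.inl h2)
        · exact Or.inr (Or.inr h2)
      · rcases two X hX Z hZ hXZ J hJ (by rw [union_comm]; exact sub a1 a2) with h2 | h2
        · exact Or.inl h2
        · exact Or.inr (Or.inr h2)
      · rcases two Y hY Z hZ hYZ J hJ (by rw [union_comm]; exact sub a1 a2) with h2 | h2
        · exact Or.inr (Or.inl h2)
        · exact Or.inr (Or.inr h2)
      · exact Or.inr (Or.inr (by rw [← hu]; exact union_subset a1 a2))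
    · have h2 : J.card = 1 := by
        have := card_pos.2 (h.ne J hJ)
        omega
      obtain ⟨a, ha⟩ := card_eq_one.1 h2
      have h3 : a ∈ J := by rw [ha]; exact mem_singleton_self a
      have h4 := hs h3
      rw [mem_union, mem_union] at h4
      rw [ha]
      simp only [singleton_subset_iff]
      tauto

/-- the new member -/
theorem exists_new {B B' : Finset (Finset S)} (hB : IsFB B) (hB' : IsFB B') (hsub : B ⊆ B')
    (hne : B ≠ B') : ∃ I ∈ B', I ∉ B ∧ IsFB (insert I B) ∧
      ∃ I1 ∈ B, ∃ I2 ∈ B, Disjoint I1 I2 ∧ I1 ∪ I2 = I := by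
  classical
  -- members of `B'` which are not in `B` and are the union of two disjoint members of `B`
  set F : Finset (Finset S) := (B' \ B).filter fun I => ∃ I1 ∈ B, ∃ I2 ∈ B, Disjoint I1 I2 ∧
    I1 ∪ I2 = I with hF
  have hFne : F.Nonempty := by
    have h1 : (B' \ B).Nonempty := by
      rw [sdiff_nonempty]
      intro h2
      exact hne (Subset.antisymm hsub h2)
    obtain ⟨I, hI, hmin⟩ := exists_min_image (B' \ B) (fun I => I.card) h1
    rw [mem_sdiff] at hI
    have h2 : 2 ≤ I.card := by
      by_contra h3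
      have h4 := card_pos.2 (hB'.ne I hI.1)
      obtain ⟨a, ha⟩ := card_eq_one.1 (by omega : I.card = 1)
      exact hI.2 (ha ▸ hB.single a)
    obtain ⟨K, hK, L, hL, hd, hu⟩ := hB'.dec I hI.1 h2
    have hc : K.card + L.card = I.card := by rw [← hu, card_union_of_disjoint hd]
    have hK0 := card_pos.2 (hB'.ne K hK)
    have hL0 := card_pos.2 (hB'.ne L hL)
    refine ⟨I, ?_⟩
    rw [hF, mem_filter, mem_sdiff]
    refine ⟨hI, K, ?_, L, ?_, hd, hu⟩
    · by_contra h3
      have := hmin K (mem_sdiff.2 ⟨hK, h3⟩)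
      omega
    · by_contra h3
      have := hmin L (mem_sdiff.2 ⟨hL, h3⟩)
      omega
  obtain ⟨I, hI, hmax⟩ := exists_max_image F (fun I => I.card) hFne
  rw [hF, mem_filter, mem_sdiff] at hI
  obtain ⟨⟨hI1, hI2⟩, I1, h1, I2, h2, hd, hu⟩ := hI
  have hI1ne := hB.ne I1 h1
  have hI2ne := hB.ne I2 h2
  -- unions with `I`
  have hjoin : ∀ K ∈ B, ¬ Disjoint K I → K ∪ I ∈ insert I B := by
    intro K hK hKI
    rw [mem_insert]
    by_cases hKs : K ⊆ I
    · left
      exact union_eq_right.2 hKs
    right
    have aux : ∀ P ∈ B, ∀ Q ∈ B, Disjoint P Q → P ∪ Q = I → ¬ Disjoint K P → K ∪ I ∈ B := by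
      intro P hP Q hQ hPQ hPQI hKP
      have h3 := hB.join K hK P hP hKP
      by_cases h4 : Disjoint (K ∪ P) Q
      · by_contra h5
        have h6 : (K ∪ P) ∪ Q = K ∪ I := by rw [union_assoc, hPQI]
        have h7 : K ∪ I ∈ B' := hB'.join K (hsub hK) I hI1 hKI
        have h8 : K ∪ I ∈ F := by
          rw [hF, mem_filter, mem_sdiff]
          exact ⟨⟨h7, h5⟩, K ∪ P, h3, Q, hQ, h4, h6⟩
        have h9 := hmax _ h8
        have h10 : I ⊂ K ∪ I := by
          refine ssubset_of_subset_not_subset subset_union_right ?_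
          intro h11
          exact hKs (subset_union_left.trans h11)
        exact absurd (card_lt_card h10) (by omega)
      · have h5 := hB.join _ h3 Q hQ h4
        rwa [union_assoc, hPQI] at h5
    by_cases h3 : Disjoint K I1
    · refine aux I2 h2 I1 h1 hd.symm (by rw [union_comm]; exact hu) ?_
      intro h4
      apply hKI
      rw [← hu, disjoint_union_right]
      exact ⟨h3, h4⟩
    · exact aux I1 h1 I2 h2 hd hu h3
  refine ⟨I, hI1, hI2, ⟨?_, ?_, ?_, ?_⟩, I1, h1, I2, h2, hd, hu⟩
  · intro J hJ
    rcases mem_insert.1 hJ with rfl | hJ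
    · rw [← hu]
      exact hI1ne.mono subset_union_left
    · exact hB.ne J hJ
  · exact mem_insert_of_mem hB.top
  · intro J hJ K hK hJK
    rcases mem_insert.1 hJ with hJ1 | hJ1
    · rcases mem_insert.1 hK with hK1 | hK1
      · rw [hJ1, hK1, union_self]
        exact mem_insert_self I B
      · rw [union_comm, hJ1]
        exact hjoin K hK1 (fun h => hJK (by rw [hJ1]; exact h.symm))
    · rcases mem_insert.1 hK with hK1 | hK1
      · rw [hK1]
        exact hjoin J hJ1 (by rw [← hK1]; exact hJK)
      · exact mem_insert_of_mem (hB.join J hJ1 K hK1 hJK)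
  · intro J hJ hc
    rcases mem_insert.1 hJ with rfl | hJ
    · exact ⟨I1, mem_insert_of_mem h1, I2, mem_insert_of_mem h2, hd, hu⟩
    · obtain ⟨K, hK, L, hL, hd', hu'⟩ := hB.dec J hJ hc
      exact ⟨K, mem_insert_of_mem hK, L, mem_insert_of_mem hL, hd', hu'⟩

/-- a member inside the union of two members whose union is not a member lies in one of them -/
theorem IsFB.two {B : Finset (Finset S)} (h : IsFB B) {P Q : Finset S} (hP : P ∈ B) (hQ : Q ∈ B)
    (hPQ : P ∪ Q ∉ B) {J : Finset S} (hJ : J ∈ B) (hs : J ⊆ P ∪ Q) : J ⊆ P ∨ J ⊆ Q := by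
  by_cases h1 : Disjoint J P
  · right
    intro z hz
    rcases mem_union.1 (hs hz) with h2 | h2
    · exact absurd h2 (disjoint_left.1 h1 hz)
    · exact h2
  by_cases h2 : Disjoint J Q
  · left
    intro z hz
    rcases mem_union.1 (hs hz) with h3 | h3
    · exact h3
    · exact absurd h3 (disjoint_left.1 h2 hz)
  exfalso
  have h3 := h.join J hJ P hP h1
  have h4 : ¬ Disjoint (J ∪ P) Q := fun h5 => h2 (h5.mono_left subset_union_left)
  have h5 := h.join _ h3 Q hQ h4
  rw [union_assoc, union_eq_right.2 hs] at h5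
  exact hPQ h5

section iso

variable {B : Finset (Finset S)} {I I1 I2 : Finset S}

/-- the vertices of the new complex -/
def newEquiv (hI : I ∉ B) (hIu : I ≠ univ) : {J : Finset S // J ∈ insert I B ∧ J ≠ univ} ≃
    Option {J : Finset S // J ∈ B ∧ J ≠ univ} where
  toFun J := if h : J.1 = I then none else
    some ⟨J.1, (mem_insert.1 J.2.1).resolve_left h, J.2.2⟩
  invFun K := match K with
    | none => ⟨I, mem_insert_self I B, hIu⟩
    | some K => ⟨K.1, mem_insert_of_mem K.2.1, K.2.2⟩
  left_inv J := by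
    obtain ⟨J, hJ, hJu⟩ := J
    by_cases h : J = I
    · simp [h]
    · simp [h]
  right_inv K := by
    rcases K with _ | ⟨K, hK, hKu⟩
    · simp
    · have h : K ≠ I := fun h => hI (h ▸ hK)
      simp [h]

theorem newEquiv_none {hI : I ∉ B} {hIu : I ≠ univ} {J : {J : Finset S // J ∈ insert I B ∧ J ≠ univ}}
    (h : J.1 = I) : newEquiv hI hIu J = none := by
  simp [newEquiv, h]

theorem newEquiv_some {hI : I ∉ B} {hIu : I ≠ univ} {J : {J : Finset S // J ∈ insert I B ∧ J ≠ univ}}
    (h : J.1 ≠ I) : newEquiv hI hIu J =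
      some ⟨J.1, (mem_insert.1 J.2.1).resolve_left h, J.2.2⟩ := by
  simp [newEquiv, h]

theorem nest_adj_new (hB : IsFB B) (hB1 : IsFB (insert I B)) (hI : I ∉ B) (h1 : I1 ∈ B)
    (h2 : I2 ∈ B) (hd : Disjoint I1 I2) (hu : I1 ∪ I2 = I) {K : Finset S} (hK : K ∈ B) :
    (I ⊆ K ∨ K ⊆ I ∨ (Disjoint I K ∧ I ∪ K ∉ insert I B)) ↔
      (K = I1 ∨ K = I2 ∨
        ((I1 ≠ K ∧ (I1 ⊆ K ∨ K ⊆ I1 ∨ (Disjoint I1 K ∧ I1 ∪ K ∉ B))) ∧
          (I2 ≠ K ∧ (I2 ⊆ K ∨ K ⊆ I2 ∨ (Disjoint I2 K ∧ I2 ∪ K ∉ B))))) := by
  have hI1ne := hB.ne I1 h1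
  have hI2ne := hB.ne I2 h2
  have hKne := hB.ne K hK
  have hIu : I1 ∪ I2 ∉ B := by rw [hu]; exact hI
  have hI1I : I1 ⊆ I := hu ▸ subset_union_left
  have hI2I : I2 ⊆ I := hu ▸ subset_union_right
  -- no nonempty set lies in two disjoint ones
  have no : ∀ {P Q R : Finset S}, R.Nonempty → R ⊆ P → R ⊆ Q → Disjoint P Q → False := by
    intro P Q R hR hP hQ hPQ
    obtain ⟨x, hx⟩ := hR
    exact disjoint_left.1 hPQ (hP hx) (hQ hx)
  -- `K` inside one of the two parts
  have inner : ∀ {P Q : Finset S}, P ∈ B → Q ∈ B → Disjoint P Q → P ∪ Q ∉ B → K ⊆ P → K ≠ P →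
      ((P ≠ K ∧ (P ⊆ K ∨ K ⊆ P ∨ (Disjoint P K ∧ P ∪ K ∉ B))) ∧
        (Q ≠ K ∧ (Q ⊆ K ∨ K ⊆ Q ∨ (Disjoint Q K ∧ Q ∪ K ∉ B)))) := by
    intro P Q hP hQ hPQ hPQB hKP hKP'
    refine ⟨⟨fun h => hKP' h.symm, Or.inr (Or.inl hKP)⟩, ?_, Or.inr (Or.inr ⟨?_, ?_⟩)⟩
    · rintro rfl
      exact no hKne hKP Subset.rfl hPQ
    · exact (hPQ.mono_left hKP).symm
    · intro h3
      apply hPQB
      have h4 : ¬ Disjoint (Q ∪ K) P := by
        intro h5
        exact no hKne subset_union_right hKP h5
      have h5 := hB.join _ h3 P hP h4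
      have h6 : Q ∪ K ∪ P = P ∪ Q := by
        rw [union_assoc, union_eq_right.2 hKP, union_comm]
      rwa [h6] at h5
  constructor
  · rintro (h3 | h3 | ⟨h3, h4⟩)
    · refine Or.inr (Or.inr ⟨⟨?_, Or.inl (hI1I.trans h3)⟩, ?_, Or.inl (hI2I.trans h3)⟩)
      · rintro rfl
        exact no hI2ne (hI2I.trans h3) Subset.rfl hd
      · rintro rfl
        exact no hI1ne Subset.rfl (hI1I.trans h3) hd
    · rcases hB.two h1 h2 hIu hK (by rw [hu]; exact h3) with h4 | h4
      · by_cases h5 : K = I1
        · exact Or.inl h5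
        · exact Or.inr (Or.inr (inner h1 h2 hd hIu h4 h5))
      · by_cases h5 : K = I2
        · exact Or.inr (Or.inl h5)
        · exact Or.inr (Or.inr (inner h2 h1 hd.symm (by rwa [union_comm]) h4 h5).symm)
    · have aux : ∀ {P : Finset S}, P ∈ B → P ⊆ I →
          (P ≠ K ∧ (P ⊆ K ∨ K ⊆ P ∨ (Disjoint P K ∧ P ∪ K ∉ B))) := by
        intro P hP hPI
        refine ⟨?_, Or.inr (Or.inr ⟨h3.mono_left hPI, ?_⟩)⟩
        · rintro rfl
          exact no hKne hPI Subset.rfl h3
        · intro h5
          apply h4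
          have h6 : ¬ Disjoint (P ∪ K) I := by
            intro h7
            exact no (hB.ne P hP) subset_union_left hPI h7
          have h7 := hB1.join _ (mem_insert_of_mem h5) I (mem_insert_self I B) h6
          have h8 : P ∪ K ∪ I = I ∪ K := by
            rw [union_comm P K, union_assoc, union_eq_right.2 hPI, union_comm]
          rwa [h8] at h7
      exact Or.inr (Or.inr ⟨aux h1 hI1I, aux h2 hI2I⟩)
  · -- one part inside `K` and the other one disjoint from `K`
    have mixed : ∀ {P Q : Finset S}, P ∈ B → Q ∈ B → P ∪ Q = I → P ≠ K → P ⊆ K → Disjoint Q K →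
        Q ∪ K ∉ B → False := by
      intro P Q hP hQ hPQ hPK hPK' hQK hQKB
      have h3 : ¬ Disjoint K I := by
        intro h4
        exact no (hB.ne P hP) hPK' (hPQ ▸ subset_union_left) h4
      have h4 := hB1.join K (mem_insert_of_mem hK) I (mem_insert_self I B) h3
      have h5 : K ∪ I = Q ∪ K := by
        rw [← hPQ, ← union_assoc, union_eq_left.2 hPK', union_comm]
      rw [h5, mem_insert] at h4
      rcases h4 with h4 | h4
      · have h6 : K ⊆ P ∪ Q := by
          rw [hPQ, ← h4]
          exact subset_union_right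
        rcases hB.two hP hQ (by rw [hPQ]; exact hI) hK h6 with h7 | h7
        · exact hPK (Subset.antisymm hPK' h7)
        · exact no hKne h7 Subset.rfl hQK
      · exact hQKB h4
    rintro (rfl | rfl | ⟨⟨h3, h4⟩, h5, h6⟩)
    · exact Or.inr (Or.inl hI1I)
    · exact Or.inr (Or.inl hI2I)
    · rcases h4 with h4 | h4 | ⟨h4, h4'⟩
      · rcases h6 with h6 | h6 | ⟨h6, h6'⟩
        · left
          rw [← hu]
          exact union_subset h4 h6
        · exact Or.inr (Or.inl (h6.trans hI2I))
        · exact (mixed h1 h2 hu h3 h4 h6 h6').elim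
      · exact Or.inr (Or.inl (h4.trans hI1I))
      · rcases h6 with h6 | h6 | ⟨h6, h6'⟩
        · exact (mixed h2 h1 (by rw [union_comm]; exact hu) h5 h6 h4 h4').elim
        · exact Or.inr (Or.inl (h6.trans hI2I))
        · have hIK : Disjoint I K := by
            rw [← hu, disjoint_union_left]
            exact ⟨h4, h6⟩
          refine Or.inr (Or.inr ⟨hIK, ?_⟩)
          rw [mem_insert, not_or]
          refine ⟨?_, ?_⟩
          · intro h7
            exact no hKne (union_eq_left.1 h7) Subset.rfl hIK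
          · intro h7
            rcases hB.three h1 h2 hK hIu h4' h6' _ _ h7 le_rfl (by rw [hu]) with h8 | h8 | h8
            · exact no hI2ne (hI2I.trans (subset_union_left.trans h8)) Subset.rfl hd
            · exact no hI1ne Subset.rfl (hI1I.trans (subset_union_left.trans h8)) hd
            · exact no hI1ne (hI1I.trans (subset_union_left.trans h8)) Subset.rfl h4.symm

/-- adding the member `I = I1 ∪ I2` subdivides the edge from `I1` to `I2` -/
def newIso (hB : IsFB B) (hB1 : IsFB (insert I B)) (hI : I ∉ B) (hIu : I ≠ univ)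
    (u w : {J : Finset S // J ∈ B ∧ J ≠ univ}) (hd : Disjoint u.1 w.1) (hu : u.1 ∪ w.1 = I) :
    nestG (insert I B) ≃g edgeSubdiv (nestG B) u w where
  toEquiv := newEquiv hI hIu
  map_rel_iff' := by
    have hune := hB.ne u.1 u.2.1
    have hwne := hB.ne w.1 w.2.1
    have key : ∀ J K : {J : Finset S // J ∈ insert I B ∧ J ≠ univ}, J.1 = I → K.1 ≠ I →
        ((edgeSubdiv (nestG B) u w).Adj (newEquiv hI hIu J) (newEquiv hI hIu K) ↔
          (nestG (insert I B)).Adj J K) := by
      intro J K hJ hK
      rw [newEquiv_none hJ, newEquiv_some hK]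
      have hKB := (mem_insert.1 K.2.1).resolve_left hK
      have h1 := nest_adj_new hB hB1 hI u.2.1 w.2.1 hd hu hKB
      simp only [edgeSubdiv, nestG_adj, Subtype.ext_iff, ne_eq, hJ]
      have h2 : ¬ I = K.1 := fun h => hK h.symm
      simp only [h2, not_false_eq_true, true_and]
      exact h1.symm
    intro J K
    by_cases hJ : J.1 = I
    · by_cases hK : K.1 = I
      · have hJK : J = K := Subtype.ext (hJ.trans hK.symm)
        subst hJK
        exact ⟨fun h => absurd h ((edgeSubdiv (nestG B) u w).loopless.irrefl _),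
          fun h => absurd h ((nestG (insert I B)).loopless.irrefl _)⟩
      · exact key J K hJ hK
    · by_cases hK : K.1 = I
      · have h1 := key K J hK hJ
        rw [SimpleGraph.adj_comm, h1, SimpleGraph.adj_comm]
      · have h1 : newEquiv hI hIu J = _ := newEquiv_some hJ
        have h2 : newEquiv hI hIu K = _ := newEquiv_some hK
        change (edgeSubdiv (nestG B) u w).Adj (newEquiv hI hIu J) (newEquiv hI hIu K) ↔ _
        rw [h1, h2]
        have hJB := (mem_insert.1 J.2.1).resolve_left hJ
        have hKB := (mem_insert.1 K.2.1).resolve_left hK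
        have hIu' : u.1 ∪ w.1 ∉ B := by rw [hu]; exact hI
        simp only [edgeSubdiv, nestG_adj, Subtype.ext_iff, ne_eq]
        constructor
        · rintro ⟨⟨h3, h4⟩, h5, h6⟩
          refine ⟨h3, ?_⟩
          rcases h4 with h4 | h4 | ⟨h4, h4'⟩
          · exact Or.inl h4
          · exact Or.inr (Or.inl h4)
          · refine Or.inr (Or.inr ⟨h4, ?_⟩)
            rw [mem_insert, not_or]
            refine ⟨fun h7 => ?_, h4'⟩
            have hJK : J.1 ∪ K.1 = u.1 ∪ w.1 := h7.trans hu.symm
            have hJI : J.1 ⊆ u.1 ∪ w.1 := hJK ▸ subset_union_left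
            have hKI : K.1 ⊆ u.1 ∪ w.1 := hJK ▸ subset_union_right
            have full : ∀ {P Q J K : Finset S}, Disjoint P Q → J ∪ K = P ∪ Q → J ⊆ P → K ⊆ Q →
                J = P ∧ K = Q := by
              intro P Q J K hPQ hJK hJ hK
              constructor
              · refine Subset.antisymm hJ fun x hx => ?_
                have h8 : x ∈ J ∪ K := by rw [hJK]; exact mem_union_left _ hx
                rcases mem_union.1 h8 with h9 | h9
                · exact h9
                · exact absurd (hK h9) (disjoint_left.1 hPQ hx)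
              · refine Subset.antisymm hK fun x hx => ?_
                have h8 : x ∈ J ∪ K := by rw [hJK]; exact mem_union_right _ hx
                rcases mem_union.1 h8 with h9 | h9
                · exact absurd hx (disjoint_left.1 hPQ (hJ h9))
                · exact h9
            have same : ∀ {P Q : Finset S}, Q.Nonempty → Disjoint P Q → J.1 ∪ K.1 = P ∪ Q →
                J.1 ⊆ P → K.1 ⊆ P → False := by
              intro P Q hQ hPQ hJK hJ hK
              obtain ⟨x, hx⟩ := hQ
              have h8 : x ∈ J.1 ∪ K.1 := by rw [hJK]; exact mem_union_right _ hx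
              exact disjoint_left.1 hPQ (union_subset hJ hK h8) hx
            rcases hB.two u.2.1 w.2.1 hIu' hJB hJI with h8 | h8 <;>
              rcases hB.two u.2.1 w.2.1 hIu' hKB hKI with h9 | h9
            · exact same hwne hd (h7.trans hu.symm) h8 h9
            · exact h5 (full hd (h7.trans hu.symm) h8 h9)
            · refine h6 (full hd.symm ?_ h8 h9)
              rw [h7, ← hu, union_comm]
            · refine same hune hd.symm ?_ h8 h9
              rw [h7, ← hu, union_comm]
        · rintro ⟨h3, h4⟩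
          rcases h4 with h4 | h4 | ⟨h4, h4'⟩
          · refine ⟨⟨h3, Or.inl h4⟩, ?_, ?_⟩
            · rintro ⟨h5, h6⟩
              rw [h5, h6] at h4
              obtain ⟨x, hx⟩ := hune
              exact disjoint_left.1 hd hx (h4 hx)
            · rintro ⟨h5, h6⟩
              rw [h5, h6] at h4
              obtain ⟨x, hx⟩ := hwne
              exact disjoint_left.1 hd (h4 hx) hx
          · refine ⟨⟨h3, Or.inr (Or.inl h4)⟩, ?_, ?_⟩
            · rintro ⟨h5, h6⟩
              rw [h5, h6] at h4
              obtain ⟨x, hx⟩ := hwne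
              exact disjoint_left.1 hd (h4 hx) hx
            · rintro ⟨h5, h6⟩
              rw [h5, h6] at h4
              obtain ⟨x, hx⟩ := hune
              exact disjoint_left.1 hd hx (h4 hx)
          · rw [mem_insert, not_or] at h4'
            refine ⟨⟨h3, Or.inr (Or.inr ⟨h4, h4'.2⟩)⟩, ?_, ?_⟩
            · rintro ⟨h5, h6⟩
              rw [h5, h6] at h4'
              exact h4'.1 hu
            · rintro ⟨h5, h6⟩
              rw [h5, h6] at h4'
              exact h4'.1 (by rw [union_comm]; exact hu)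

end iso

end Pool.Agent.H78.VN
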